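import Mathlib
import Pool.Agent.Lib.MP_ec2ab1_pr_h18.Sdpi
import Pool.Agent.Lib.MP_ec2ab1_pr_h63.SdpiS
import Pool.Agent.Lib.MP_ec2ab1_pr_h74.Sub

set_option autoImplicit false

/-!
# The two point entropy power inequality

For independent copies `X`, `Y` and `W ~ N(0, h)`: `N(X + W)² ≥ N(X)² + h N(X + Y)`, where `N` is the
entropy power.
-/

namespace Pool.Agent.MP_ec2ab1_pr.GR

open MeasureTheory ProbabilityTheory InformationTheory
open scoped NNReal ENNReal
open Pool.Agent.Lib.MP_ec2ab1_pr_h18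

/-- divergence of product laws -/
theorem kl_prod2 (μ ν P Q : Measure ℝ) [IsProbabilityMeasure μ] [IsProbabilityMeasure ν]
    [IsProbabilityMeasure P] [IsProbabilityMeasure Q] :
    klDiv (μ.prod ν) (P.prod Q) = klDiv μ P + klDiv ν Q := by
  have h : (μ.prod ν).snd = ν := Measure.snd_prod
  rw [kl_snd (μ.prod ν) P Q, h, kl_prod_right, add_comm]

/-- scaling of the second coordinate -/
theorem kl_scale_snd (ω : Measure (ℝ × ℝ)) [IsProbabilityMeasure ω] (ρ : Measure ℝ)
    [IsProbabilityMeasure ρ] {a : ℝ} (ha : a ≠ 0) {s : ℝ≥0} (hs : a ^ 2 * s = 1) :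
    klDiv (ω.map fun p : ℝ × ℝ => (p.1, a * p.2)) (ρ.prod (G 1)) = klDiv ω (ρ.prod (G s)) := by
  have h : (G s).map (fun x => a * x) = G 1 := by
    rw [gaussianReal_map_const_mul, mul_zero]
    congr 1
    ext
    push_cast
    exact hs
  have h1 : (ρ.prod (G s)).map (Prod.map id fun x => a * x) = ρ.prod (G 1) := by
    have := Measure.map_prod_map ρ (G s) measurable_id
      (by fun_prop : Measurable fun x : ℝ => a * x)
    rw [Measure.map_id, h] at this
    exact this.symm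
  have e := kl_map_equiv ω (ρ.prod (G s))
    ((MeasurableEquiv.refl ℝ).prodCongr (MeasurableEquiv.mulLeft₀ a ha))
  have h3 : (((MeasurableEquiv.refl ℝ).prodCongr (MeasurableEquiv.mulLeft₀ a ha)) :
      ℝ × ℝ → ℝ × ℝ) = Prod.map id fun x => a * x := by
    funext p
    ext
    · rfl
    · rfl
  rw [h3, h1] at e
  exact e

theorem neg_G' (v : ℝ≥0) : (G v).map (fun x => -x) = G v := by
  rw [gaussianReal_map_neg, neg_zero]

theorem G_sqrt (h : ℝ≥0) : (G 1).map (fun x => Real.sqrt h * x) = G h := by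
  rw [gaussianReal_map_const_mul, mul_zero]
  congr 1
  ext
  push_cast
  rw [Real.sq_sqrt h.coe_nonneg, mul_one]

/-- the pair `(X + W, Y - W)` -/
noncomputable def jj (μ : Measure ℝ) (h : ℝ≥0) : Measure (ℝ × ℝ) :=
  ((μ.prod μ).prod (G 1)).map fun q : (ℝ × ℝ) × ℝ =>
    (q.1.1 + Real.sqrt h * q.2, q.1.2 - Real.sqrt h * q.2)

instance (μ : Measure ℝ) (h : ℝ≥0) [IsProbabilityMeasure μ] : IsProbabilityMeasure (jj μ h) :=
  Measure.isProbabilityMeasure_map (by fun_prop)

theorem cv_G_eq (μ : Measure ℝ) [IsProbabilityMeasure μ] (h : ℝ≥0) :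
    cv μ (G h) = (μ.prod (G 1)).map fun p : ℝ × ℝ => p.1 + Real.sqrt h * p.2 := by
  have e2 : μ.prod (G h) = (μ.prod (G 1)).map (Prod.map id (fun x => Real.sqrt h * x)) := by
    have := Measure.map_prod_map μ (G 1) measurable_id
      (by fun_prop : Measurable fun x : ℝ => Real.sqrt h * x)
    rw [Measure.map_id, G_sqrt] at this
    exact this
  rw [cv, e2, Measure.map_map (by fun_prop) (by fun_prop)]
  rfl

theorem jj_fst (μ : Measure ℝ) [IsProbabilityMeasure μ] (h : ℝ≥0) :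
    (jj μ h).fst = cv μ (G h) := by
  have e : μ.prod (G 1) = ((μ.prod μ).prod (G 1)).map (Prod.map Prod.fst id) := by
    have := Measure.map_prod_map (μ.prod μ) (G 1) (measurable_fst (α := ℝ) (β := ℝ))
      measurable_id
    rw [Measure.map_id, Measure.map_fst_prod] at this
    simpa using this
  rw [cv_G_eq, e, Measure.fst, jj, Measure.map_map measurable_fst (by fun_prop),
    Measure.map_map (by fun_prop) (measurable_fst.prodMap measurable_id)]
  rfl

theorem jj_snd (μ : Measure ℝ) [IsProbabilityMeasure μ] (h : ℝ≥0) :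
    (jj μ h).snd = cv μ (G h) := by
  have e : μ.prod (G 1) = ((μ.prod μ).prod (G 1)).map (Prod.map Prod.snd fun x => -x) := by
    have := Measure.map_prod_map (μ.prod μ) (G 1) (measurable_snd (α := ℝ) (β := ℝ))
      (measurable_neg : Measurable fun x : ℝ => -x)
    rw [neg_G', Measure.map_snd_prod] at this
    simpa using this
  rw [cv_G_eq, e, Measure.snd, jj, Measure.map_map measurable_snd (by fun_prop),
    Measure.map_map (by fun_prop) (measurable_snd.prodMap measurable_neg)]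
  congr 1
  funext q
  simp only [Function.comp, Prod.map]
  ring

theorem sd_fst (μ : Measure ℝ) [IsProbabilityMeasure μ] :
    ((μ.prod μ).map sd).fst = cv μ μ := by
  rw [Measure.fst, Measure.map_map measurable_fst sd.measurable]
  rfl

/-- the law of the difference -/
theorem sd_snd (μ : Measure ℝ) [IsProbabilityMeasure μ] :
    ((μ.prod μ).map sd).snd = (μ.prod μ).map fun p : ℝ × ℝ => p.1 - p.2 := by
  rw [Measure.snd, Measure.map_map measurable_snd sd.measurable]
  rfl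

theorem diff_mem {μ : Measure ℝ} [IsProbabilityMeasure μ] (hm : MemLp (fun x : ℝ => x) 2 μ) :
    MemLp (fun x : ℝ => x) 2 ((μ.prod μ).map fun p : ℝ × ℝ => p.1 - p.2) := by
  rw [memLp_map_measure_iff (by fun_prop) (by fun_prop)]
  exact (hm.comp_fst μ).sub (hm.comp_snd μ)

theorem diff_second {μ : Measure ℝ} [IsProbabilityMeasure μ] (hm : MemLp (fun x : ℝ => x) 2 μ)
    (h0 : ∫ x, x ∂μ = 0) : ∫ x, x ^ 2 ∂((μ.prod μ).map fun p : ℝ × ℝ => p.1 - p.2) =
      2 * ∫ x, x ^ 2 ∂μ := by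
  rw [integral_map (by fun_prop) (by fun_prop)]
  have iP : Integrable (fun x : ℝ => x) μ := hm.integrable (by norm_num)
  have j1 : Integrable (fun p : ℝ × ℝ => p.1 ^ 2) (μ.prod μ) := hm.integrable_sq.comp_fst μ
  have j2 : Integrable (fun p : ℝ × ℝ => p.2 ^ 2) (μ.prod μ) := hm.integrable_sq.comp_snd μ
  have j3 : Integrable (fun p : ℝ × ℝ => p.1 * p.2) (μ.prod μ) := iP.mul_prod iP
  have e1 : ∫ p : ℝ × ℝ, p.1 ^ 2 ∂(μ.prod μ) = ∫ x, x ^ 2 ∂μ := by
    have := integral_fun_fst (μ := μ) (ν := μ) (fun x : ℝ => x ^ 2)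
    simpa using this
  have e2 : ∫ p : ℝ × ℝ, p.2 ^ 2 ∂(μ.prod μ) = ∫ x, x ^ 2 ∂μ := by
    have := integral_fun_snd (μ := μ) (ν := μ) (fun x : ℝ => x ^ 2)
    simpa using this
  have e3 : ∫ p : ℝ × ℝ, p.1 * p.2 ∂(μ.prod μ) = 0 := by
    rw [integral_prod_mul (fun x : ℝ => x) (fun x : ℝ => x), h0, zero_mul]
  have h : ∀ p : ℝ × ℝ, (p.1 - p.2) ^ 2 = p.1 ^ 2 + p.2 ^ 2 - 2 * (p.1 * p.2) := fun p => by ring
  simp only [h]
  have k : Integrable (fun p : ℝ × ℝ => p.1 ^ 2 + p.2 ^ 2) (μ.prod μ) := j1.add j2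
  rw [integral_sub k (j3.const_mul 2), integral_add j1 j2, integral_const_mul, e1, e2, e3]
  ring

/-- the linearised inequality at a dyadic weight, mean zero -/
theorem lin {μ : Measure ℝ} [IsProbabilityMeasure μ] (hm : MemLp (fun x : ℝ => x) 2 μ)
    (h0 : ∫ x, x ∂μ = 0) (hok : EntOK μ) {h : ℝ≥0} (hh : h ≠ 0) (k n : ℕ) (hk : 0 < k)
    (hkn : k < 2 ^ n) :
    ((k : ℝ) / 2 ^ n) * (2 * ent μ) + (1 - (k : ℝ) / 2 ^ n) *
      (ent (cv μ μ) + Real.log (2 * Real.pi * Real.exp 1 * h) / 2) + hb ((k : ℝ) / 2 ^ n) ≤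
      2 * ent (cv μ (G h)) := by
  have hh' : (0 : ℝ) < h := by positivity
  set l : ℝ := (k : ℝ) / 2 ^ n with hl
  have hp : (0 : ℝ) < 2 ^ n := by positivity
  have l0 : 0 < l := div_pos (by exact_mod_cast hk) hp
  have l1 : l < 1 := by
    rw [hl, div_lt_one hp]
    exact_mod_cast hkn
  have l1' : 0 < 1 - l := by linarith
  -- reference variances
  set v : ℝ≥0 := ⟨2 * h / (1 - l), by positivity⟩ with hv
  have cv0 : (v : ℝ) = 2 * h / (1 - l) := rfl
  have vpos : (0 : ℝ) < v := by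
    rw [cv0]
    positivity
  have v' : v ≠ 0 := by
    intro e
    rw [e] at vpos
    simp at vpos
  have v2' : 2 * v ≠ 0 := mul_ne_zero two_ne_zero v'
  set s : ℝ≥0 := ⟨l * (2 * v), by positivity⟩ with hs
  have cs : (s : ℝ) = l * (2 * v) := rfl
  have spos : (0 : ℝ) < s := by
    rw [cs]
    positivity
  have s' : s ≠ 0 := by
    intro e
    rw [e] at spos
    simp at spos
  set κ : ℝ := Real.sqrt (1 / s) with hκ
  have hκ2 : κ ^ 2 = 1 / s := Real.sq_sqrt (by positivity)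
  have hκ0 : 0 < κ := Real.sqrt_pos.2 (by positivity)
  have hsl : 0 < Real.sqrt l := Real.sqrt_pos.2 l0
  -- sum and difference
  set ω₀ : Measure (ℝ × ℝ) := (μ.prod μ).map sd with hω₀
  have iω₀ : IsProbabilityMeasure ω₀ := Measure.isProbabilityMeasure_map sd.measurable.aemeasurable
  have k0 : klDiv ω₀ ((G (2 * v)).prod (G (2 * v))) = klDiv μ (G v) + klDiv μ (G v) := by
    rw [hω₀, ← sd_G, kl_map_equiv, kl_prod2]
  have finμ : klDiv μ (G v) ≠ ∞ := (entOK_iff hm v').2 hok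
  have fin0 : klDiv ω₀ ((G (2 * v)).prod (G (2 * v))) ≠ ∞ := by
    rw [k0]
    exact ENNReal.add_ne_top.2 ⟨finμ, finμ⟩
  set D : Measure ℝ := ω₀.snd with hD
  have iD : IsProbabilityMeasure D := inferInstance
  have mD : MemLp (fun x : ℝ => x) 2 D := by
    rw [hD, hω₀, sd_snd]
    exact diff_mem hm
  have sD : ∫ x, x ^ 2 ∂D = 2 * ∫ x, x ^ 2 ∂μ := by
    rw [hD, hω₀, sd_snd]
    exact diff_second hm h0
  have c1 := kl_snd ω₀ (G (2 * v)) (G (2 * v))
  have c2 := kl_snd ω₀ (G (2 * v)) (G s)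
  rw [← hD] at c1 c2
  have f1 : klDiv D (G (2 * v)) ≠ ∞ := by
    intro e
    rw [e, top_add] at c1
    exact fin0 c1
  have f2 : klDiv ω₀ ((G (2 * v)).prod D) ≠ ∞ := by
    intro e
    rw [e, add_top] at c1
    exact fin0 c1
  have okD : EntOK D := (entOK_iff mD v2').1 f1
  have f3 : klDiv D (G s) ≠ ∞ := (entOK_iff mD s').2 okD
  have fin2 : klDiv ω₀ ((G (2 * v)).prod (G s)) ≠ ∞ := by
    rw [c2]
    exact ENNReal.add_ne_top.2 ⟨f3, f2⟩
  -- the sum
  have hfst : ω₀.fst = cv μ μ := sd_fst μ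
  have sup := kl_superadd ω₀ (G (2 * v)) (G (2 * v))
  have fS : klDiv (cv μ μ) (G (2 * v)) ≠ ∞ := by
    intro e
    rw [hfst, e, top_add] at sup
    exact fin0 (top_le_iff.1 sup)
  have mS : MemLp (fun x : ℝ => x) 2 (cv μ μ) := memLp_cv hm hm
  have okS : EntOK (cv μ μ) := (entOK_iff mS v2').1 fS
  have sS : ∫ x, x ^ 2 ∂(cv μ μ) = 2 * ∫ x, x ^ 2 ∂μ := by
    rw [second_cv hm hm h0]
    ring
  -- the noisy copy
  have mN : MemLp (fun x : ℝ => x) 2 (cv μ (G h)) := memLp_cv hm (memLp_G h)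
  have okN : EntOK (cv μ (G h)) := entOK_cv_G hm hh
  have sN : ∫ x, x ^ 2 ∂(cv μ (G h)) = ∫ x, x ^ 2 ∂μ + h := by
    rw [second_cv hm (memLp_G h) h0, second_G]
  -- side information
  set ω : Measure (ℝ × ℝ) := ω₀.map fun p : ℝ × ℝ => (p.1, κ * p.2) with hω
  have iω : IsProbabilityMeasure ω := Measure.isProbabilityMeasure_map (by fun_prop)
  have key := Pool.Agent.Lib.MP_ec2ab1_pr_h63.si ω (G (2 * v)) k n hkn.le
  have ωfst : ω.fst = cv μ μ := by
    rw [← hfst, hω, Measure.fst, Measure.map_map measurable_fst (by fun_prop)]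
    rfl
  have hlaw : ((ω.prod (G 1)).map fun p : (ℝ × ℝ) × ℝ =>
      (p.1.1, Real.sqrt ((k : ℝ) / 2 ^ n) * p.1.2 + Real.sqrt (1 - (k : ℝ) / 2 ^ n) * p.2)) =
      ((jj μ h).map sd).map fun p : ℝ × ℝ => (p.1, Real.sqrt l * κ * p.2) := by
    have hcoef : Real.sqrt l * κ * (2 * Real.sqrt h) = Real.sqrt (1 - l) := by
      have h2 : (2 : ℝ) = Real.sqrt 4 := by
        rw [show (4 : ℝ) = 2 ^ 2 by norm_num, Real.sqrt_sq (by norm_num)]
      rw [h2, hκ, ← Real.sqrt_mul l0.le, ← Real.sqrt_mul (by norm_num : (0 : ℝ) ≤ 4),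
        ← Real.sqrt_mul (by positivity)]
      congr 1
      rw [cs, cv0]
      field_simp
      ring
    have e1 : ω.prod (G 1) = ((μ.prod μ).prod (G 1)).map
        (Prod.map (fun p : ℝ × ℝ => (p.1 + p.2, κ * (p.1 - p.2))) id) := by
      have e0 : ω = (μ.prod μ).map fun p : ℝ × ℝ => (p.1 + p.2, κ * (p.1 - p.2)) := by
        rw [hω, hω₀, Measure.map_map (by fun_prop) sd.measurable]
        rfl
      have := Measure.map_prod_map (μ.prod μ) (G 1)
        (by fun_prop : Measurable fun p : ℝ × ℝ => (p.1 + p.2, κ * (p.1 - p.2)))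
        measurable_id
      rw [Measure.map_id, ← e0] at this
      exact this
    rw [e1, jj, Measure.map_map (by fun_prop) (by fun_prop),
      Measure.map_map sd.measurable (by fun_prop),
      Measure.map_map (by fun_prop) (sd.measurable.comp (by fun_prop))]
    congr 1
    funext q
    simp only [Function.comp, Prod.map, id, sd_apply]
    rw [← hl, ← hcoef]
    ext
    · simp only []
      ring
    · simp only []
      ring
  have aux : (Real.sqrt l * κ) ^ 2 * ((2 * v : ℝ≥0) : ℝ) = 1 := by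
    rw [mul_pow, hκ2, Real.sq_sqrt l0.le, cs]
    push_cast
    field_simp
  have iJ2 : IsProbabilityMeasure ((jj μ h).map sd) :=
    Measure.isProbabilityMeasure_map sd.measurable.aemeasurable
  rw [hlaw, kl_scale_snd ((jj μ h).map sd) (G (2 * v)) (by positivity) aux, ← sd_G, kl_map_equiv,
    hω, kl_scale_snd ω₀ (G (2 * v)) hκ0.ne' (by rw [hκ2]; field_simp), ← hω, ωfst,
    ← hl] at key
  have sup2 := (kl_superadd (jj μ h) (G v) (G v)).trans key
  rw [jj_fst, jj_snd] at sup2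
  have finR : ENNReal.ofReal l * klDiv ω₀ ((G (2 * v)).prod (G s)) +
      ENNReal.ofReal (1 - l) * klDiv (cv μ μ) (G (2 * v)) ≠ ∞ :=
    ENNReal.add_ne_top.2 ⟨ENNReal.mul_ne_top ENNReal.ofReal_ne_top fin2,
      ENNReal.mul_ne_top ENNReal.ofReal_ne_top fS⟩
  have fN : klDiv (cv μ (G h)) (G v) ≠ ∞ := (entOK_iff mN v').2 okN
  have r := ENNReal.toReal_mono finR sup2
  rw [ENNReal.toReal_add fN fN, ENNReal.toReal_add
    (ENNReal.mul_ne_top ENNReal.ofReal_ne_top fin2) (ENNReal.mul_ne_top ENNReal.ofReal_ne_top fS),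
    ENNReal.toReal_mul, ENNReal.toReal_mul, ENNReal.toReal_ofReal l0.le,
    ENNReal.toReal_ofReal l1'.le, c2, ENNReal.toReal_add f3 f2] at r
  have r0 := congrArg ENNReal.toReal (k0.symm.trans c1)
  rw [ENNReal.toReal_add finμ finμ, ENNReal.toReal_add f1 f2] at r0
  have q1 := kl_ent mD v2' okD
  have q2 := kl_ent mD s' okD
  have q3 := kl_ent hm v' hok
  have q4 := kl_ent mS v2' okS
  have q5 := kl_ent mN v' okN
  rw [q1, q3] at r0
  rw [q2, q4, q5] at r
  rw [sD] at r0 r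
  rw [sS, sN] at r
  set m : ℝ := ∫ x, x ^ 2 ∂μ with hm2
  set I : ℝ := (klDiv ω₀ ((G (2 * v)).prod D)).toReal with hI
  have lv : Real.log v = Real.log 2 + Real.log h - Real.log (1 - l) := by
    rw [cv0, Real.log_div (by positivity) l1'.ne', Real.log_mul (by norm_num) hh'.ne']
  have g1 : Real.log (2 * Real.pi * v) = Real.log (2 * Real.pi) + Real.log v :=
    Real.log_mul (by positivity) vpos.ne'
  have g2 : Real.log (2 * Real.pi * ((2 * v : ℝ≥0) : ℝ)) =
      Real.log (2 * Real.pi) + Real.log 2 + Real.log v := by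
    push_cast
    rw [Real.log_mul (by positivity) (by positivity), Real.log_mul (by norm_num) vpos.ne']
    ring
  have g3 : Real.log (2 * Real.pi * s) =
      Real.log (2 * Real.pi) + Real.log l + Real.log 2 + Real.log v := by
    rw [cs, Real.log_mul (by positivity) (by positivity), Real.log_mul l0.ne' (by positivity),
      Real.log_mul (by norm_num) vpos.ne']
    ring
  have g4 : Real.log (2 * Real.pi * Real.exp 1 * h) =
      Real.log (2 * Real.pi) + 1 + Real.log h := by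
    rw [Real.log_mul (by positivity) hh'.ne', Real.log_mul (by positivity) (Real.exp_pos _).ne',
      Real.log_exp]
  have d1 : (m + h) / (2 * (v : ℝ)) = m / (2 * v) + (1 - l) / 4 := by
    rw [cv0]
    field_simp
    ring
  have d2 : 2 * m / (2 * ((2 * v : ℝ≥0) : ℝ)) = m / (2 * v) := by
    push_cast
    field_simp
  have d3 : l * (2 * m / (2 * (s : ℝ))) = m / (2 * v) := by
    rw [cs]
    field_simp
  rw [g1, g2, d2] at r0
  rw [g1, g2, g3, d1, d2] at r
  have hIe : I = -2 * ent μ + (Real.log (2 * Real.pi) + Real.log v) + 2 * (m / (2 * v)) +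
      ent D - (Real.log (2 * Real.pi) + Real.log 2 + Real.log v) / 2 - m / (2 * v) := by
    linarith
  rw [hIe] at r
  unfold hb
  rw [g4]
  rw [lv] at r
  nlinarith [r, d3]

theorem two_point_zero {μ : Measure ℝ} [IsProbabilityMeasure μ]
    (hm : MemLp (fun x : ℝ => x) 2 μ) (h0 : ∫ x, x ∂μ = 0) (hok : EntOK μ) {h : ℝ≥0}
    (hh : h ≠ 0) :
    Real.exp (4 * ent μ) + 2 * Real.pi * Real.exp 1 * h * Real.exp (2 * ent (cv μ μ)) ≤
      Real.exp (4 * ent (cv μ (G h))) := by
  have hh' : (0 : ℝ) < h := by positivity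
  have key := opt_of_dyadic (a := 2 * ent μ)
    (b := ent (cv μ μ) + Real.log (2 * Real.pi * Real.exp 1 * h) / 2)
    (H := 2 * ent (cv μ (G h))) fun k n hk hkn => lin hm h0 hok hh k n hk hkn
  have e1 : 2 * (2 * ent μ) = 4 * ent μ := by ring
  have e2 : 2 * (2 * ent (cv μ (G h))) = 4 * ent (cv μ (G h)) := by ring
  have e3 : 2 * (ent (cv μ μ) + Real.log (2 * Real.pi * Real.exp 1 * h) / 2) =
      Real.log (2 * Real.pi * Real.exp 1 * h) + 2 * ent (cv μ μ) := by ring
  rw [e1, e2, e3, Real.exp_add, Real.exp_log (by positivity)] at key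
  exact key

/-- **Two point inequality**: for `W ~ N(0, h)` independent of `X`, and `Y` an independent copy of
`X`, `N(X + W)² ≥ N(X)² + h N(X + Y)`, where `N` is the entropy power. -/
theorem two_point {μ : Measure ℝ} [IsProbabilityMeasure μ]
    (hm : MemLp (fun x : ℝ => x) 2 μ) (hok : EntOK μ) {h : ℝ≥0} (hh : h ≠ 0) :
    Real.exp (4 * ent μ) + 2 * Real.pi * Real.exp 1 * h * Real.exp (2 * ent (cv μ μ)) ≤
      Real.exp (4 * ent (cv μ (G h))) := by
  set a : ℝ := -∫ y, y ∂μ with ha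
  have i0 : IsProbabilityMeasure (μ.map (fun x => x + a)) :=
    Measure.isProbabilityMeasure_map (by fun_prop)
  have key := two_point_zero (memLp_map_add hm a) (mean_map_add hm) (entOK_map_add a hok) hh
  rw [cv_map_add, cv_map_add_left, ent_map_add, ent_map_add, ent_map_add] at key
  exact key

theorem cv_four (P : Measure ℝ) [IsProbabilityMeasure P] (c : ℝ≥0) :
    cv (cv P (G c)) (cv P (G c)) = cv (cv P P) (G (2 * c)) := by
  rw [cv_assoc P (G c), ← cv_assoc (G c) P (G c), cv_comm (G c) P, cv_assoc P (G c) (G c), cv_G,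
    ← cv_assoc P P, two_mul]

/-- **Two point inequality along the heat flow.** -/
theorem step {P : Measure ℝ} [IsProbabilityMeasure P] (hP : MemLp (fun x : ℝ => x) 2 P)
    {c h : ℝ≥0} (hc : c ≠ 0) (hh : h ≠ 0) :
    Real.exp (4 * ent (cv P (G c))) +
        2 * Real.pi * Real.exp 1 * h * Real.exp (2 * ent (cv (cv P P) (G (2 * c)))) ≤
      Real.exp (4 * ent (cv P (G (c + h)))) := by
  have key := two_point (memLp_cv hP (memLp_G c)) (entOK_cv_G hP hc) hh
  rw [cv_four, cv_assoc P (G c) (G h), cv_G] at key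
  exact key

end Pool.Agent.MP_ec2ab1_pr.GR
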